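import Pool.Agent.ATT.Stmts
import Pool.Agent.ANR.Stmts
import Pool.Agent.LE.StmtsQF

/-!
# Tank ATT, row RUN: a kill run

`Gk r` is the inverse of a matrix which is affine in `r`.
-/

set_option autoImplicit false

open MeasureTheory ProbabilityTheory Function Filter

open scoped ENNReal BigOperators Topology NNReal Matrix

noncomputable section

namespace Pool.Agent.ATT.H19

open Pool.Agent.LE.QF (HJ HM gG LL dC JalStmt JmaStmt)
open Pool.Agent.KIL (KJ)
open Pool.Agent.ANP (Cfg)

theorem hj_congr {ι : Type} [Fintype ι] [DecidableEq ι] {E : Type} [NormedAddCommGroup E]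
    [NormedSpace ℝ E] {F F' : ℝ × (ι → ℝ) → E} {q : ℝ × (ι → ℝ)} {v v' : E} {g g' : ι → E}
    {l l' : E} (h : HJ F q v g l) (hF : F = F') (hv : v = v') (hg : g = g') (hl : l = l') :
    HJ F' q v' g' l' := by
  subst hF hv hg hl
  exact h

section

variable {X : Type} [Fintype X] [DecidableEq X]

/-- the real part of the network in the run -/
def Hk (Hm : Matrix X X ℝ) (T : Cfg X) (D : Finset X) (r : ℝ × (D → ℝ)) : Matrix X X ℝ :=
  fun x y => hN Hm T x y +
    if h : x ∈ D then (if x = y then r.2 ⟨x, h⟩ + r.1 * (T.mb x).re else 0) else 0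

/-- the matrix -/
def Am (Hm : Matrix X X ℝ) (η e0 : ℝ) (v : ℝ≥0) (T : Cfg X) (D : Finset X)
    (r : ℝ × (D → ℝ)) : Matrix X X ℂ :=
  (Hk Hm T D r).map (fun t : ℝ => (t : ℂ)) -
    Matrix.diagonal fun x => Complex.I * (kr η e0 v T D r.1 x : ℂ)

variable {Hm : Matrix X X ℝ} {η e0 : ℝ} {v : ℝ≥0} {T : Cfg X} {D : Finset X}

omit [Fintype X] in
theorem hk_sym (hs : ∀ x y, Hm x y = Hm y x) (r : ℝ × (D → ℝ)) (x y : X) :
    Hk Hm T D r x y = Hk Hm T D r y x := by
  by_cases hxy : x = y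
  · rw [hxy]
  · unfold Hk hN
    have h1 : ∀ (a b : X), a ≠ b → (if h : a ∈ D then (if a = b then r.2 ⟨a, h⟩ +
        r.1 * (T.mb a).re else 0) else 0) = 0 := by
      intro a b hab
      by_cases h2 : a ∈ D
      · rw [dif_pos h2, if_neg hab]
      · rw [dif_neg h2]
    rw [h1 x y hxy, h1 y x (Ne.symm hxy), if_neg hxy, if_neg (Ne.symm hxy), hs x y]

omit [Fintype X] in
theorem mg_im (hv : 0 < v) (x : X) : (v : ℝ) * (mg η e0 v T x).im = v * (T.mb x).im + (η - e0) := by
  have hv' : (v : ℝ) ≠ 0 := by exact_mod_cast hv.ne'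
  unfold mg
  rw [Complex.add_im, Complex.I_mul_im, Complex.ofReal_re, mul_add, mul_div_cancel₀ _ hv']

omit [Fintype X] in
theorem mg_re (x : X) : (mg η e0 v T x).re = (T.mb x).re := by
  unfold mg
  rw [Complex.add_re, Complex.I_mul_re, Complex.ofReal_im, neg_zero, add_zero]

omit [Fintype X] [DecidableEq X] in
theorem ka_pos (h0 : 0 < e0) (h1 : e0 ≤ η) (hmb : ∀ x, 0 < T.s x → 0 < (T.mb x).im) (x : X) :
    0 < ka η e0 T x := by
  unfold ka
  split_ifs with h
  · exact h0
  · have h2 : 0 < T.s x := pos_iff_ne_zero.2 h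
    have h3 : 0 < (T.s x : ℝ) := by exact_mod_cast h2
    have h4 := mul_pos h3 (hmb x h2)
    linarith

omit [Fintype X] in
theorem kr_pos (h0 : 0 < e0) (h1 : e0 ≤ η) (hv : 0 < v)
    (hmb : ∀ x, 0 < T.s x → 0 < (T.mb x).im) (hD : ∀ c ∈ D, T.s c = v) (t : ℝ) (ht : 0 ≤ t)
    (htv : t ≤ v) (x : X) : 0 < kr η e0 v T D t x := by
  unfold kr
  split_ifs with h
  · have hs := hD x h
    have hs0 : T.s x ≠ 0 := by rw [hs]; exact hv.ne'
    have hm : 0 < (T.mb x).im := hmb x (by rw [hs]; exact hv)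
    have hvr : 0 < (v : ℝ) := by exact_mod_cast hv
    have h2 := mg_im (η := η) (e0 := e0) (T := T) hv x
    have h3 : 0 ≤ (mg η e0 v T x).im := by
      by_contra hcon
      push Not at hcon
      have h4 := mul_neg_of_pos_of_neg hvr hcon
      have h5 := mul_pos hvr hm
      linarith
    have h6 : t * (mg η e0 v T x).im ≤ v * (mg η e0 v T x).im :=
      mul_le_mul_of_nonneg_right htv h3
    unfold ka
    rw [if_neg hs0, hs]
    linarith
  · exact ka_pos h0 h1 hmb x

theorem net_of (hs : ∀ x y, Hm x y = Hm y x) (h0 : 0 < e0) (h1 : e0 ≤ η) (hv : 0 < v)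
    (hmb : ∀ x, 0 < T.s x → 0 < (T.mb x).im) (hD : ∀ c ∈ D, T.s c = v) (r : ℝ × (D → ℝ))
    (ht : 0 ≤ r.1) (htv : r.1 ≤ v) : ANR.Net (Hk Hm T D r) (kr η e0 v T D r.1) :=
  ⟨hk_sym hs r, kr_pos h0 h1 hv hmb hD r.1 ht htv⟩

theorem am_mul (hG : ANR.GeqStmt) (r : ℝ × (D → ℝ))
    (hN : ANR.Net (Hk Hm T D r) (kr η e0 v T D r.1)) :
    Am Hm η e0 v T D r * Gk Hm η e0 v T D r = 1 := by
  obtain ⟨h1, -⟩ := hG X (Hk Hm T D r) (kr η e0 v T D r.1) hN
  ext x y
  rw [Matrix.one_apply, ← h1 x y]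
  have h2 : Gk Hm η e0 v T D r = ANR.Gr (Hk Hm T D r) (kr η e0 v T D r.1) := rfl
  rw [h2]
  unfold Am ANR.opv
  rw [Matrix.sub_mul, Matrix.sub_apply, Matrix.diagonal_mul, Matrix.mul_apply]
  rfl

theorem gk_eq (r : ℝ × (D → ℝ)) : Gk Hm η e0 v T D r = (Am Hm η e0 v T D r)⁻¹ := rfl

theorem jet_A (hJ : JalStmt) (q : ℝ × (D → ℝ)) :
    HM (Am Hm η e0 v T D) q (Am Hm η e0 v T D q)
      (fun c : D => Matrix.diagonal fun x => if x = (c : X) then (1 : ℂ) else 0)
      (Matrix.diagonal fun x => if x ∈ D then mg η e0 v T x else 0) := by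
  obtain ⟨jc, jx, jalg, -, -, -, jt, -⟩ := hJ D ℂ q
  intro x y
  by_cases hxy : x = y
  · subst hxy
    by_cases hx : x ∈ D
    · set K : ℂ := ((Hm x x + (T.V x - (T.s x : ℝ) * (T.mb x).re) : ℝ) : ℂ) -
        Complex.I * (ka η e0 T x : ℂ) with hK
      have hform : ∀ r : ℝ × (D → ℝ), Am Hm η e0 v T D r x x =
          K + ((r.2 ⟨x, hx⟩ : ℝ) : ℂ) + (r.1 : ℂ) * mg η e0 v T x := by
        intro r
        unfold Am
        rw [Matrix.sub_apply, Matrix.map_apply, Matrix.diagonal_apply_eq]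
        unfold Hk hN kr
        rw [dif_pos hx, if_pos rfl, if_pos rfl, if_pos hx, hK]
        have h1 : mg η e0 v T x = ((T.mb x).re : ℂ) + Complex.I * ((mg η e0 v T x).im : ℂ) := by
          apply Complex.ext
          · rw [Complex.add_re, Complex.ofReal_re, Complex.I_mul_re, Complex.ofReal_im, neg_zero,
              add_zero, mg_re]
          · rw [Complex.add_im, Complex.ofReal_im, Complex.I_mul_im, Complex.ofReal_re, zero_add]
        conv_rhs => rw [h1]
        push_cast
        ring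
      have hct : ContDiffAt ℝ 2 (fun t : ℝ => (t : ℂ) * mg η e0 v T x) q.1 :=
        (Complex.ofRealCLM.contDiff.mul contDiff_const).contDiffAt
      have hder : deriv (fun t : ℝ => (t : ℂ) * mg η e0 v T x) q.1 = mg η e0 v T x := by
        have h1 : HasDerivAt (fun t : ℝ => (t : ℂ)) 1 q.1 := Complex.ofRealCLM.hasDerivAt
        have h2 := (h1.mul_const (mg η e0 v T x)).deriv
        rw [one_mul] at h2
        exact h2
      have e1 := jc K
      have e2 := jx ⟨x, hx⟩
      have e3 := (jalg _ _ _ _ _ _ _ _ e1 e2).1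
      have e4 := jt (fun t : ℝ => (t : ℂ) * mg η e0 v T x) hct
      have e5 := (jalg _ _ _ _ _ _ _ _ e3 e4).1
      refine hj_congr e5 ?_ ?_ ?_ ?_
      · funext r
        exact (hform r).symm
      · exact (hform q).symm
      · funext c
        beta_reduce
        rw [Matrix.diagonal_apply_eq, zero_add, add_zero]
        by_cases hc : c = ⟨x, hx⟩
        · rw [if_pos hc, hc, if_pos rfl]
        · rw [if_neg hc, if_neg]
          intro h
          exact hc (Subtype.ext h.symm)
      · rw [Matrix.diagonal_apply_eq, if_pos hx, hder, zero_add, zero_add]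
    · have hform : ∀ r : ℝ × (D → ℝ), Am Hm η e0 v T D r x x = Am Hm η e0 v T D q x x := by
        intro r
        unfold Am
        rw [Matrix.sub_apply, Matrix.map_apply, Matrix.diagonal_apply_eq, Matrix.sub_apply,
          Matrix.map_apply, Matrix.diagonal_apply_eq]
        unfold Hk kr
        rw [dif_neg hx, if_neg hx, dif_neg hx, if_neg hx]
      refine hj_congr (jc (Am Hm η e0 v T D q x x)) ?_ rfl ?_ ?_
      · funext r
        exact (hform r).symm
      · funext c
        beta_reduce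
        rw [Matrix.diagonal_apply_eq, if_neg]
        intro h
        exact hx (h ▸ c.2)
      · rw [Matrix.diagonal_apply_eq, if_neg hx]
  · have hform : ∀ r : ℝ × (D → ℝ), Am Hm η e0 v T D r x y = Am Hm η e0 v T D q x y := by
      intro r
      unfold Am
      rw [Matrix.sub_apply, Matrix.map_apply, Matrix.diagonal_apply_ne _ hxy, Matrix.sub_apply,
        Matrix.map_apply, Matrix.diagonal_apply_ne _ hxy]
      unfold Hk
      simp only [if_neg hxy]
    refine hj_congr (jc (Am Hm η e0 v T D q x y)) ?_ rfl ?_ ?_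
    · funext r
      exact (hform r).symm
    · funext c
      beta_reduce
      rw [Matrix.diagonal_apply_ne _ hxy]
    · rw [Matrix.diagonal_apply_ne _ hxy]

theorem mul_dg (M G : Matrix X X ℂ) (φ : X → ℂ) (a b : X) :
    (M * Matrix.diagonal φ * G) a b = ∑ x, M a x * φ x * G x b := by
  rw [Matrix.mul_apply]
  exact Finset.sum_congr rfl fun x _ => by rw [Matrix.mul_diagonal]

theorem mul_sg (M G : Matrix X X ℂ) (c a b : X) :
    (M * Matrix.diagonal (fun x => if x = c then (1 : ℂ) else 0) * G) a b = M a c * G c b := by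
  rw [mul_dg, Finset.sum_eq_single c]
  · rw [if_pos rfl, mul_one]
  · intro x _ hx
    rw [if_neg hx, mul_zero, zero_mul]
  · intro h
    exact absurd (Finset.mem_univ c) h

theorem jet_G (hJ : JalStmt) (hM : JmaStmt) (q : ℝ × (D → ℝ))
    (hdet : IsUnit (Am Hm η e0 v T D q).det) :
    HM (Gk Hm η e0 v T D) q (Gk Hm η e0 v T D q) (fun c : D => gG (Gk Hm η e0 v T D q) (c : X))
      (fun a b => ∑ c : D, Gk Hm η e0 v T D q a c *
        (Gk Hm η e0 v T D q c c - mg η e0 v T c) * Gk Hm η e0 v T D q c b) := by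
  have h1 := (((hM D ℂ q).2 X _ _ _ _ (jet_A (Hm := Hm) (η := η) (e0 := e0) (v := v) (T := T)
    hJ q)).1) hdet
  intro a b
  refine hj_congr (h1 a b) rfl rfl ?_ ?_
  · funext c
    beta_reduce
    rw [Matrix.neg_apply, mul_sg]
    rfl
  · rw [Matrix.add_apply, Matrix.neg_apply, mul_dg, Matrix.sum_apply, ← gk_eq]
    have h2 : ∑ x, Gk Hm η e0 v T D q a x * (if x ∈ D then mg η e0 v T x else 0) *
        Gk Hm η e0 v T D q x b =
        ∑ c : D, Gk Hm η e0 v T D q a c * mg η e0 v T c * Gk Hm η e0 v T D q c b := by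
      rw [Finset.sum_coe_sort D fun x => Gk Hm η e0 v T D q a x * mg η e0 v T x *
        Gk Hm η e0 v T D q x b]
      rw [← Finset.sum_subset (Finset.subset_univ D)]
      · exact Finset.sum_congr rfl fun x hx => by rw [if_pos hx]
      · intro x _ hx
        rw [if_neg hx, mul_zero, zero_mul]
    rw [h2, ← Finset.sum_neg_distrib, ← Finset.sum_add_distrib]
    refine Finset.sum_congr rfl fun c _ => ?_
    rw [mul_sg, mul_sg]
    ring

theorem ward (hG : ANR.GeqStmt) (hs : ∀ x y, Hm x y = Hm y x) (r : ℝ × (D → ℝ))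
    (hN : ANR.Net (Hk Hm T D r) (kr η e0 v T D r.1)) (a b : X) :
    ∑ y, (kr η e0 v T D r.1 y : ℂ) * (Gk Hm η e0 v T D r a y *
      (starRingEnd ℂ) (Gk Hm η e0 v T D r b y)) = ((Gk Hm η e0 v T D r a b).im : ℂ) := by
  have hAG := am_mul hG r hN
  obtain ⟨-, hsy, -⟩ := hG X (Hk Hm T D r) (kr η e0 v T D r.1) hN
  set G := Gk Hm η e0 v T D r with hGdef
  set A := Am Hm η e0 v T D r with hAdef
  have hGA : G * A = 1 := mul_eq_one_comm.1 hAG
  have hGA' : Aᴴ * Gᴴ = 1 := by
    rw [← Matrix.conjTranspose_mul, hGA, Matrix.conjTranspose_one]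
  have hA' : Aᴴ - A = Matrix.diagonal fun x => 2 * Complex.I * (kr η e0 v T D r.1 x : ℂ) := by
    ext x y
    rw [Matrix.sub_apply, Matrix.conjTranspose_apply, hAdef]
    unfold Am
    rw [Matrix.sub_apply, Matrix.sub_apply, Matrix.map_apply, Matrix.map_apply,
      hk_sym hs r y x]
    by_cases hxy : x = y
    · subst hxy
      rw [Matrix.diagonal_apply_eq, Matrix.diagonal_apply_eq, star_sub, star_mul',
        Complex.star_def, Complex.conj_ofReal, Complex.conj_ofReal, Complex.conj_I]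
      ring
    · rw [Matrix.diagonal_apply_ne _ hxy, Matrix.diagonal_apply_ne _ hxy,
        Matrix.diagonal_apply_ne _ (Ne.symm hxy), star_sub, Complex.star_def,
        Complex.conj_ofReal, map_zero]
      ring
  have h1 : G * (Aᴴ - A) * Gᴴ = G - Gᴴ := by
    rw [Matrix.mul_sub, Matrix.sub_mul, Matrix.mul_assoc, hGA', Matrix.mul_one, hGA,
      Matrix.one_mul]
  have h2 := congrFun (congrFun h1 a) b
  rw [hA', mul_dg, Matrix.sub_apply, Matrix.conjTranspose_apply] at h2
  have hsym : G b a = G a b := hsy b a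
  rw [hsym] at h2
  have h3 : G a b - star (G a b) = 2 * Complex.I * ((G a b).im : ℂ) := by
    apply Complex.ext <;> simp
    ring
  have h4 : ∑ x, G a x * (2 * Complex.I * (kr η e0 v T D r.1 x : ℂ)) * Gᴴ x b =
      2 * Complex.I * ∑ y, (kr η e0 v T D r.1 y : ℂ) * (G a y * (starRingEnd ℂ) (G b y)) := by
    rw [Finset.mul_sum]
    refine Finset.sum_congr rfl fun x _ => ?_
    rw [Matrix.conjTranspose_apply, Complex.star_def]
    ring
  rw [h4, h3] at h2
  have h5 : (2 * Complex.I : ℂ) ≠ 0 := mul_ne_zero two_ne_zero Complex.I_ne_zero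
  exact mul_left_cancel₀ h5 h2

end

theorem run (hG : ANR.GeqStmt) (hJ : JalStmt) (hM : JmaStmt) : RunStmt := by
  intro X _ _ Hm η e0 v T D hs h0 h1 hv hmb hD
  have hnet := fun (r : ℝ × (D → ℝ)) (ht : 0 ≤ r.1) (htv : r.1 ≤ v) =>
    net_of (Hm := Hm) hs h0 h1 hv hmb hD r ht htv
  have hdet : ∀ (r : ℝ × (D → ℝ)), 0 ≤ r.1 → r.1 ≤ v → IsUnit (Am Hm η e0 v T D r).det :=
    fun r ht htv => Matrix.isUnit_det_of_right_inverse (am_mul hG r (hnet r ht htv))
  have hend : ∀ ζ : X → ℝ, Gk Hm η e0 v T D (v, fun c => ζ c) = GT Hm η e0 (T.kl D ζ) ∧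
      kr η e0 v T D v = ka η e0 (T.kl D ζ) := by
    intro ζ
    have hk : kr η e0 v T D v = ka η e0 (T.kl D ζ) := by
      funext x
      unfold kr ka Cfg.kl
      by_cases hx : x ∈ D
      · have hs0 : T.s x ≠ 0 := by rw [hD x hx]; exact hv.ne'
        simp only [if_pos hx, if_neg hs0, if_true]
        rw [mg_im hv, hD x hx]
        ring
      · simp only [if_neg hx]
    refine ⟨?_, hk⟩
    have hH : Hk Hm T D ((v : ℝ), fun c => ζ c) = hN Hm (T.kl D ζ) := by
      funext x y
      unfold Hk hN Cfg.kl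
      by_cases hx : x ∈ D
      · by_cases hxy : x = y
        · simp only [dif_pos hx, if_pos hxy, if_pos hx]
          rw [hD x hx]
          simp only [NNReal.coe_zero]
          ring
        · simp only [dif_pos hx, if_neg hxy, add_zero]
      · simp only [dif_neg hx, if_neg hx, add_zero]
    have h2 : Gk Hm η e0 v T D ((v : ℝ), fun c => ζ c) =
        ANR.Gr (Hk Hm T D ((v : ℝ), fun c => ζ c)) (kr η e0 v T D v) := rfl
    rw [h2, hH, hk]
    rfl
  refine ⟨?_, ?_, ?_, hend, ?_⟩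
  · intro r ht htv
    refine ⟨⟨Subtype.val_injective, jet_G hJ hM r (hdet r ht htv), ?_, ?_, ?_, ?_⟩,
      kr_pos h0 h1 hv hmb hD r.1 ht htv, ward hG hs r (hnet r ht htv)⟩
    · exact (hG X (Hk Hm T D r) (kr η e0 v T D r.1) (hnet r ht htv)).2.1
    · intro x
      refine ⟨?_, rfl⟩
      unfold kr
      by_cases hx : x ∈ D
      · simp only [if_pos hx]
        exact (contDiff_const.sub (contDiff_id.mul contDiff_const)).contDiffAt
      · simp only [if_neg hx]
        exact contDiffAt_const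
    · intro c
      unfold kr
      simp only [if_pos c.2]
      have h2 : HasDerivAt (fun t : ℝ => ka η e0 T c - t * (mg η e0 v T c).im)
          (-(1 * (mg η e0 v T c).im)) r.1 :=
        ((hasDerivAt_id r.1).mul_const _).const_sub _
      rw [h2.deriv, one_mul]
    · intro x hx
      have hx' : x ∉ D := fun h => hx ⟨⟨x, h⟩, rfl⟩
      unfold kr
      simp only [if_neg hx', deriv_const]
  · have hH : Hk Hm T D 0 = hN Hm T := by
      funext x y
      unfold Hk
      split_ifs <;> simp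
    have hk : kr η e0 v T D (0 : ℝ × (D → ℝ)).1 = ka η e0 T := by
      funext x
      unfold kr
      split_ifs <;> simp
    have h2 : Gk Hm η e0 v T D 0 = ANR.Gr (Hk Hm T D 0) (kr η e0 v T D (0 : ℝ × (D → ℝ)).1) :=
      rfl
    rw [h2, hH, hk]
    rfl
  · funext x
    unfold kr
    split_ifs <;> simp
  · intro a b
    have h2 : (fun ζ : X → ℝ => GT Hm η e0 (T.kl D ζ) a b) =
        fun ζ : X → ℝ => Gk Hm η e0 v T D ((v : ℝ), fun c : D => ζ c) a b := by
      funext ζ
      rw [(hend ζ).1]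
    rw [h2]
    refine Continuous.measurable (continuous_iff_continuousAt.2 fun ζ => ?_)
    have h3 := (jet_G (Hm := Hm) (η := η) (e0 := e0) (v := v) (T := T) hJ hM
      ((v : ℝ), fun c : D => ζ c) (hdet _ v.2 le_rfl) a b).sm.continuousAt
    have h4 : ContinuousAt (fun ζ : X → ℝ => ((v : ℝ), fun c : D => ζ c)) ζ := by
      apply Continuous.continuousAt
      fun_prop
    exact ContinuousAt.comp (f := fun ζ : X → ℝ => ((v : ℝ), fun c : D => ζ c)) h3 h4

end Pool.Agent.ATT.H19
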